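import Mathlib

set_option autoImplicit false

open PowerSeries

/-!
# A two-dimensional local ring with a Frobenius closed parameter ideal whose Frobenius power is
not Frobenius closed

`R = 𝔽_p⟦a,b,c⟧ / (ac, b²c, bc²)`, `I = (a + c, b)`.
-/

namespace Pool.Agent.FrobParam

variable (p : ℕ) [Fact p.Prime]

/-- The ambient regular local ring `𝔽_p⟦c⟧⟦b⟧⟦a⟧`. -/
abbrev S : Type := PowerSeries (PowerSeries (PowerSeries (ZMod p)))

/-- The variable `a`. -/
noncomputable def va : S p := X
/-- The variable `b`. -/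
noncomputable def vb : S p := C X
/-- The variable `c`. -/
noncomputable def vc : S p := C (C X)

/-- The defining ideal `(ac, b²c, bc²)`. -/
noncomputable def J : Ideal (S p) :=
  Ideal.span {va p * vc p, vb p ^ 2 * vc p, vb p * vc p ^ 2}

/-- The ring of the example. -/
abbrev R : Type := S p ⧸ J p

/-- The constant term. -/
noncomputable def eps : S p →+* ZMod p :=
  (constantCoeff (R := ZMod p)).comp
    ((constantCoeff (R := PowerSeries (ZMod p))).comp
      (constantCoeff (R := PowerSeries (PowerSeries (ZMod p)))))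

lemma eps_va : eps p (va p) = 0 := by simp [eps, va]
lemma eps_vb : eps p (vb p) = 0 := by simp [eps, vb]
lemma eps_vc : eps p (vc p) = 0 := by simp [eps, vc]

lemma isUnit_iff (f : S p) : IsUnit f ↔ eps p f ≠ 0 := by
  rw [PowerSeries.isUnit_iff_constantCoeff, PowerSeries.isUnit_iff_constantCoeff,
    PowerSeries.isUnit_iff_constantCoeff, isUnit_iff_ne_zero]
  rfl

lemma decomp (f : S p) : ∃ f₁ g h : S p, f = va p * f₁ + vb p * g + vc p * h +
    C (C (C (eps p f))) := by
  have h1 := PowerSeries.eq_X_mul_shift_add_const f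
  have h2 := PowerSeries.eq_X_mul_shift_add_const (constantCoeff f)
  have h3 := PowerSeries.eq_X_mul_shift_add_const (constantCoeff (constantCoeff f))
  refine ⟨PowerSeries.mk fun n => (coeff (n + 1)) f,
    C (PowerSeries.mk fun n => (coeff (n + 1)) (constantCoeff f)),
    C (C (PowerSeries.mk fun n => (coeff (n + 1)) (constantCoeff (constantCoeff f)))), ?_⟩
  conv_lhs => rw [h1, h2, h3]
  simp only [va, vb, vc, eps, map_add, map_mul, RingHom.comp_apply]
  ring

lemma J_le_ker : J p ≤ RingHom.ker (eps p) := by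
  rw [J, Ideal.span_le]
  rintro x (rfl | rfl | rfl) <;>
    simp [RingHom.mem_ker, eps_va, eps_vb, eps_vc]

instance : Nontrivial (R p) := by
  rw [Ideal.Quotient.nontrivial_iff]
  intro h
  have : (1 : S p) ∈ RingHom.ker (eps p) := J_le_ker p (h ▸ Submodule.mem_top)
  simp [RingHom.mem_ker] at this

instance : IsLocalRing (R p) :=
  IsLocalRing.of_surjective' (Ideal.Quotient.mk (J p)) Ideal.Quotient.mk_surjective

instance : CharP (R p) p := by
  have h : Function.Injective ((Ideal.Quotient.mk (J p)).comp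
      ((C (R := PowerSeries (PowerSeries (ZMod p)))).comp ((C (R := PowerSeries (ZMod p))).comp
        (C (R := ZMod p))))) := RingHom.injective _
  exact charP_of_injective_ringHom h p

/-- The images of the variables. -/
noncomputable def ra : R p := Ideal.Quotient.mk (J p) (va p)
/-- The images of the variables. -/
noncomputable def rb : R p := Ideal.Quotient.mk (J p) (vb p)
/-- The images of the variables. -/
noncomputable def rc : R p := Ideal.Quotient.mk (J p) (vc p)

lemma ra_mul_rc : ra p * rc p = 0 := by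
  rw [ra, rc, ← map_mul, Ideal.Quotient.eq_zero_iff_mem]
  exact Ideal.subset_span (by simp)

lemma rb_sq_mul_rc : rb p ^ 2 * rc p = 0 := by
  rw [rb, rc, ← map_pow, ← map_mul, Ideal.Quotient.eq_zero_iff_mem]
  exact Ideal.subset_span (by simp)

/-- The augmentation of `R`. -/
noncomputable def aug : R p →+* ZMod p :=
  Ideal.Quotient.lift (J p) (eps p) (fun _ hx => J_le_ker p hx)

lemma aug_mk (f : S p) : aug p (Ideal.Quotient.mk (J p) f) = eps p f := rfl

lemma isUnit_of_aug {r : R p} (h : aug p r ≠ 0) : IsUnit r := by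
  obtain ⟨f, rfl⟩ := Ideal.Quotient.mk_surjective r
  rw [aug_mk] at h
  exact ((isUnit_iff p f).2 h).map _

lemma mem_max_iff {r : R p} : r ∈ IsLocalRing.maximalIdeal (R p) ↔ aug p r = 0 := by
  rw [IsLocalRing.mem_maximalIdeal, mem_nonunits_iff]
  constructor
  · intro h
    by_contra h'
    exact h (isUnit_of_aug p h')
  · intro h h'
    exact (h'.map (aug p)).ne_zero h

lemma decomp_R (r : R p) : ∃ f g h : R p, r = ra p * f + rb p * g + rc p * h +
    Ideal.Quotient.mk (J p) (C (C (C (aug p r)))) := by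
  obtain ⟨x, rfl⟩ := Ideal.Quotient.mk_surjective r
  obtain ⟨f, g, h, hx⟩ := decomp p x
  refine ⟨Ideal.Quotient.mk _ f, Ideal.Quotient.mk _ g, Ideal.Quotient.mk _ h, ?_⟩
  conv_lhs => rw [hx]
  simp only [map_add, map_mul, aug_mk, ra, rb, rc]

lemma decomp_R_max {r : R p} (hr : aug p r = 0) : ∃ f g h : R p,
    r = ra p * f + rb p * g + rc p * h := by
  obtain ⟨f, g, h, hx⟩ := decomp_R p r
  refine ⟨f, g, h, ?_⟩
  rw [hr] at hx
  simpa using hx

/-- The parameter ideal `(a + c, b)`. -/
noncomputable def par : Fin 2 → R p := ![ra p + rc p, rb p]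

lemma range_par : Set.range (par p) = {ra p + rc p, rb p} := by
  simp [par, Matrix.range_cons, Matrix.range_empty, Set.pair_comm]

lemma aug_ra : aug p (ra p) = 0 := by rw [ra, aug_mk, eps_va]
lemma aug_rb : aug p (rb p) = 0 := by rw [rb, aug_mk, eps_vb]
lemma aug_rc : aug p (rc p) = 0 := by rw [rc, aug_mk, eps_vc]

lemma span_par_le : Ideal.span (Set.range (par p)) ≤ IsLocalRing.maximalIdeal (R p) := by
  rw [range_par, Ideal.span_le]
  rintro x (rfl | rfl)
  · simp only [SetLike.mem_coe, mem_max_iff, map_add, aug_ra, aug_rc, add_zero]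
  · simp only [SetLike.mem_coe, mem_max_iff, aug_rb]

lemma mem1 : ra p + rc p ∈ Ideal.span (Set.range (par p)) := by
  rw [range_par]; exact Ideal.subset_span (by simp)
lemma mem2 : rb p ∈ Ideal.span (Set.range (par p)) := by
  rw [range_par]; exact Ideal.subset_span (by simp)

lemma mem_sq_a : ra p ^ 2 ∈ Ideal.span (Set.range (par p)) := by
  have : ra p ^ 2 = ra p * (ra p + rc p) := by rw [mul_add, ra_mul_rc]; ring
  rw [this]
  exact Ideal.mul_mem_left _ _ (mem1 p)

lemma mem_sq_c : rc p ^ 2 ∈ Ideal.span (Set.range (par p)) := by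
  have : rc p ^ 2 = rc p * (ra p + rc p) := by
    rw [mul_add, mul_comm (rc p) (ra p), ra_mul_rc]; ring
  rw [this]
  exact Ideal.mul_mem_left _ _ (mem1 p)

lemma radical_par : (Ideal.span (Set.range (par p))).radical = IsLocalRing.maximalIdeal (R p) := by
  apply le_antisymm
  · rw [Ideal.IsPrime.radical_le_iff (IsLocalRing.maximalIdeal.isMaximal (R p)).isPrime]
    exact span_par_le p
  · intro r hr
    rw [mem_max_iff] at hr
    obtain ⟨f, g, h, rfl⟩ := decomp_R_max p hr
    have ha : ra p ∈ (Ideal.span (Set.range (par p))).radical := ⟨2, mem_sq_a p⟩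
    have hb : rb p ∈ (Ideal.span (Set.range (par p))).radical := Ideal.le_radical (mem2 p)
    have hc : rc p ∈ (Ideal.span (Set.range (par p))).radical := ⟨2, mem_sq_c p⟩
    exact Ideal.add_mem _ (Ideal.add_mem _ (Ideal.mul_mem_right _ _ ha)
      (Ideal.mul_mem_right _ _ hb)) (Ideal.mul_mem_right _ _ hc)

/-- `a ↦ X`, `b, c ↦ 0`. -/
noncomputable def psiS1 : S p →+* PowerSeries (ZMod p) :=
  PowerSeries.map ((constantCoeff (R := ZMod p)).comp (constantCoeff (R := PowerSeries (ZMod p))))

/-- `c ↦ X`, `a, b ↦ 0`. -/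
noncomputable def psiS2 : S p →+* PowerSeries (ZMod p) :=
  (constantCoeff (R := PowerSeries (ZMod p))).comp
    (constantCoeff (R := PowerSeries (PowerSeries (ZMod p))))

lemma psiS1_a : psiS1 p (va p) = X := by simp [psiS1, va]
lemma psiS1_b : psiS1 p (vb p) = 0 := by simp [psiS1, vb]
lemma psiS1_c : psiS1 p (vc p) = 0 := by simp [psiS1, vc]
lemma psiS2_a : psiS2 p (va p) = 0 := by simp [psiS2, va]
lemma psiS2_b : psiS2 p (vb p) = 0 := by simp [psiS2, vb]
lemma psiS2_c : psiS2 p (vc p) = X := by simp [psiS2, vc]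

/-- `a ↦ X`, `b, c ↦ 0` on `R`. -/
noncomputable def psi1 : R p →+* PowerSeries (ZMod p) :=
  Ideal.Quotient.lift (J p) (psiS1 p) (by
    have : J p ≤ RingHom.ker (psiS1 p) := by
      rw [J, Ideal.span_le]
      rintro x (rfl | rfl | rfl) <;>
        simp [RingHom.mem_ker, psiS1_a, psiS1_b, psiS1_c]
    exact fun x hx => this hx)

/-- `c ↦ X`, `a, b ↦ 0` on `R`. -/
noncomputable def psi2 : R p →+* PowerSeries (ZMod p) :=
  Ideal.Quotient.lift (J p) (psiS2 p) (by
    have : J p ≤ RingHom.ker (psiS2 p) := by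
      rw [J, Ideal.span_le]
      rintro x (rfl | rfl | rfl) <;>
        simp [RingHom.mem_ker, psiS2_a, psiS2_b, psiS2_c]
    exact fun x hx => this hx)

lemma psi1_a : psi1 p (ra p) = X := psiS1_a p
lemma psi1_b : psi1 p (rb p) = 0 := psiS1_b p
lemma psi1_c : psi1 p (rc p) = 0 := psiS1_c p
lemma psi2_a : psi2 p (ra p) = 0 := psiS2_a p
lemma psi2_b : psi2 p (rb p) = 0 := psiS2_b p
lemma psi2_c : psi2 p (rc p) = X := psiS2_c p

lemma const_psi1 (r : R p) : constantCoeff (psi1 p r) = aug p r := by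
  obtain ⟨f, rfl⟩ := Ideal.Quotient.mk_surjective r
  show constantCoeff (psiS1 p f) = eps p f
  rw [psiS1, ← PowerSeries.coeff_zero_eq_constantCoeff_apply, PowerSeries.coeff_map,
    PowerSeries.coeff_zero_eq_constantCoeff_apply]
  rfl

lemma const_psi2 (r : R p) : constantCoeff (psi2 p r) = aug p r := by
  obtain ⟨f, rfl⟩ := Ideal.Quotient.mk_surjective r
  rfl

lemma key1 {q : ℕ} (hq : q ≠ 0) :
    ra p ^ q ∉ Ideal.span {(ra p + rc p) ^ q, rb p ^ q} := by
  intro h
  rw [Ideal.mem_span_pair] at h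
  obtain ⟨u, v, huv⟩ := h
  have h1 := congrArg (psi1 p) huv
  have h2 := congrArg (psi2 p) huv
  simp only [map_add, map_mul, map_pow, psi1_a, psi1_b, psi1_c, add_zero, zero_pow hq,
    mul_zero] at h1
  simp only [map_add, map_mul, map_pow, psi2_a, psi2_b, psi2_c, zero_add, zero_pow hq,
    mul_zero, add_zero] at h2
  have hX : (X : PowerSeries (ZMod p)) ^ q ≠ 0 := pow_ne_zero _ X_ne_zero
  have e1 : psi1 p u = 1 := by
    apply mul_right_cancel₀ hX
    rw [h1, one_mul]
  have e2 : psi2 p u = 0 := by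
    rcases mul_eq_zero.1 h2 with h | h
    · exact h
    · exact absurd h hX
  have := const_psi1 p u
  rw [e1, ← const_psi2 p u, e2] at this
  simp at this

/-- The coefficient of `b c`. -/
noncomputable def tau (f : S p) : ZMod p := coeff 1 (coeff 1 (constantCoeff f))

lemma tau_add (f g : S p) : tau p (f + g) = tau p f + tau p g := by simp [tau]

lemma tau_a (f : S p) : tau p (f * va p) = 0 := by simp [tau, va]

lemma tau_b (f : S p) : tau p (f * vb p ^ 2) = 0 := by
  simp only [tau, vb, map_mul, map_pow, PowerSeries.constantCoeff_C, PowerSeries.coeff_mul_X_pow']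
  simp

lemma tau_c (f : S p) : tau p (f * vc p ^ 2) = 0 := by
  simp only [tau, vc, map_mul, map_pow, PowerSeries.constantCoeff_C]
  rw [← map_pow, PowerSeries.coeff_mul_C, PowerSeries.coeff_mul_X_pow']
  simp

lemma tau_bc : tau p (vb p * vc p) = 1 := by
  simp only [tau, vb, vc, map_mul, PowerSeries.constantCoeff_C]
  rw [PowerSeries.coeff_mul_C]
  simp

lemma tau_J' {f : S p} (hf : f ∈ J p) : ∀ u : S p, tau p (u * f) = 0 := by
  rw [J] at hf
  induction hf using Submodule.span_induction with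
  | mem x hx =>
    intro u
    rcases hx with rfl | rfl | rfl
    · rw [show u * (va p * vc p) = (u * vc p) * va p by ring, tau_a]
    · rw [show u * (vb p ^ 2 * vc p) = (u * vc p) * vb p ^ 2 by ring, tau_b]
    · rw [show u * (vb p * vc p ^ 2) = (u * vb p) * vc p ^ 2 by ring, tau_c]
  | zero => intro u; simp [tau]
  | add x y _ _ hx hy => intro u; rw [mul_add, tau_add, hx, hy, add_zero]
  | smul r x _ hx => intro u; rw [smul_eq_mul, ← mul_assoc, hx]

lemma tau_J {f : S p} (hf : f ∈ J p) : tau p f = 0 := by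
  simpa using tau_J' p hf 1

lemma key2 {q : ℕ} (hq : 2 ≤ q) :
    rb p * rc p ∉ Ideal.span {(ra p + rc p) ^ q, rb p ^ q} := by
  intro h
  rw [Ideal.mem_span_pair] at h
  obtain ⟨u, v, huv⟩ := h
  obtain ⟨u, rfl⟩ := Ideal.Quotient.mk_surjective u
  obtain ⟨v, rfl⟩ := Ideal.Quotient.mk_surjective v
  have h1 : u * (va p + vc p) ^ q + v * vb p ^ q - vb p * vc p ∈ J p := by
    rw [← Ideal.Quotient.eq_zero_iff_mem]
    simp only [map_sub, map_add, map_mul, map_pow]
    exact sub_eq_zero.2 huv
  have h2 := tau_J p h1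
  obtain ⟨n, rfl⟩ := Nat.exists_eq_add_of_le hq
  have e1 : tau p (u * (va p + vc p) ^ (2 + n)) = 0 := by
    rw [show u * (va p + vc p) ^ (2 + n) = (u * (va p + vc p) ^ n * (va p + 2 * vc p)) * va p +
      (u * (va p + vc p) ^ n) * vc p ^ 2 by ring, tau_add, tau_a, tau_c, add_zero]
  have e2 : tau p (v * vb p ^ (2 + n)) = 0 := by
    rw [show v * vb p ^ (2 + n) = (v * vb p ^ n) * vb p ^ 2 by ring, tau_b]
  have e3 : tau p (u * (va p + vc p) ^ (2 + n) + v * vb p ^ (2 + n)) =
      tau p (vb p * vc p) := by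
    have := tau_add p (u * (va p + vc p) ^ (2 + n) + v * vb p ^ (2 + n) - vb p * vc p)
      (vb p * vc p)
    rw [sub_add_cancel, h2, zero_add] at this
    exact this
  rw [tau_add, e1, e2, tau_bc] at e3
  simp at e3

/-- `a ↦ X`, `b ↦ C X`, `c ↦ 0`, onto a two-dimensional regular ring. -/
noncomputable def chiS : S p →+* PowerSeries (PowerSeries (ZMod p)) :=
  PowerSeries.map (PowerSeries.map (constantCoeff (R := ZMod p)))

/-- The induced map on `R`. -/
noncomputable def chi : R p →+* PowerSeries (PowerSeries (ZMod p)) :=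
  Ideal.Quotient.lift (J p) (chiS p) (by
    have : J p ≤ RingHom.ker (chiS p) := by
      rw [J, Ideal.span_le]
      rintro x (rfl | rfl | rfl) <;>
        simp [RingHom.mem_ker, chiS, vc]
    exact fun x hx => this hx)

lemma chi_surjective : Function.Surjective (chi p) := by
  apply Ideal.Quotient.lift_surjective_of_surjective
  apply PowerSeries.map_surjective
  apply PowerSeries.map_surjective
  exact PowerSeries.constantCoeff_surj

lemma dim_ge : (2 : WithBot ℕ∞) ≤ ringKrullDim (R p) := by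
  refine le_trans ?_ (ringKrullDim_le_of_surjective (chi p) (chi_surjective p))
  have h0 : ringKrullDim (ZMod p) = 0 := ringKrullDim_eq_zero_of_field _
  have h1 := ringKrullDim_succ_le_ringKrullDim_powerseries (R := ZMod p)
  have h2 := ringKrullDim_succ_le_ringKrullDim_powerseries (R := PowerSeries (ZMod p))
  rw [h0, zero_add] at h1
  calc (2 : WithBot ℕ∞) = 1 + 1 := by norm_num
    _ ≤ _ := add_le_add_left h1 1
    _ ≤ _ := h2

lemma dim_le : ringKrullDim (R p) ≤ (2 : WithBot ℕ∞) := by
  rw [← IsLocalRing.maximalIdeal_height_eq_ringKrullDim]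
  have hmin : IsLocalRing.maximalIdeal (R p) ∈
      (Ideal.span (({ra p + rc p, rb p} : Set (R p)))).minimalPrimes := by
    rw [← range_par]
    refine ⟨⟨(IsLocalRing.maximalIdeal.isMaximal (R p)).isPrime, span_par_le p⟩, ?_⟩
    rintro q ⟨hq, hle⟩ _
    rw [← radical_par p]
    exact hq.radical_le_iff.2 hle
  have := Ideal.height_le_card_of_mem_minimalPrimes_span (Set.toFinite _) hmin
  have h2 : (({ra p + rc p, rb p} : Set (R p))).ncard ≤ 2 := by
    refine (Set.ncard_insert_le _ _).trans ?_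
    rw [Set.ncard_singleton]
  have h3 : (IsLocalRing.maximalIdeal (R p)).height ≤ (2 : ℕ∞) :=
    this.trans (by exact_mod_cast h2)
  exact WithBot.coe_le_coe.2 h3

lemma dim_eq : ringKrullDim (R p) = ((2 : ℕ) : WithBot ℕ∞) :=
  le_antisymm (dim_le p) (dim_ge p)

/-- `I` is Frobenius closed. -/
lemma closed_par [ExpChar (R p) p] (r : R p) (h : ∃ e : ℕ, r ^ (p ^ e) ∈
    Ideal.map (iterateFrobenius (R p) p e) (Ideal.span (Set.range (par p)))) :
    r ∈ Ideal.span (Set.range (par p)) := by
  obtain ⟨e, he⟩ := h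
  have hmap : Ideal.map (iterateFrobenius (R p) p e) (Ideal.span (Set.range (par p))) =
      Ideal.span {(ra p + rc p) ^ (p ^ e), rb p ^ (p ^ e)} := by
    rw [range_par, Ideal.map_span, Set.image_pair, iterateFrobenius_def, iterateFrobenius_def]
  have hq : p ^ e ≠ 0 := pow_ne_zero _ (Fact.out : p.Prime).ne_zero
  rw [hmap] at he
  -- the augmentation of `r` vanishes
  have hle : Ideal.span {(ra p + rc p) ^ (p ^ e), rb p ^ (p ^ e)} ≤
      IsLocalRing.maximalIdeal (R p) := by
    rw [Ideal.span_le]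
    rintro x (rfl | rfl)
    · rw [SetLike.mem_coe, mem_max_iff, map_pow, map_add, aug_ra, aug_rc, add_zero,
        zero_pow hq]
    · rw [SetLike.mem_coe, mem_max_iff, map_pow, aug_rb, zero_pow hq]
  have haug : aug p r = 0 := by
    have := (mem_max_iff p).1 (hle he)
    rw [map_pow] at this
    exact pow_eq_zero_iff hq |>.1 this
  obtain ⟨f, g, h, hr⟩ := decomp_R_max p haug
  -- `r = a (f - h) + ((a + c) h + b g)`
  have hr' : r = ra p * (f - h) + ((ra p + rc p) * h + rb p * g) := by rw [hr]; ring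
  have hi : (ra p + rc p) * h + rb p * g ∈ Ideal.span (Set.range (par p)) :=
    Ideal.add_mem _ (Ideal.mul_mem_right _ _ (mem1 p)) (Ideal.mul_mem_right _ _ (mem2 p))
  rw [hr']
  refine Ideal.add_mem _ ?_ hi
  by_cases hw : aug p (f - h) = 0
  · obtain ⟨f', g', h', hw'⟩ := decomp_R_max p hw
    rw [hw']
    have : ra p * (ra p * f' + rb p * g' + rc p * h') = ra p ^ 2 * f' + rb p * (ra p * g') := by
      have h0 := ra_mul_rc p
      calc ra p * (ra p * f' + rb p * g' + rc p * h') =
          ra p ^ 2 * f' + rb p * (ra p * g') + (ra p * rc p) * h' := by ring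
        _ = _ := by rw [h0]; ring
    rw [this]
    exact Ideal.add_mem _ (Ideal.mul_mem_right _ _ (mem_sq_a p))
      (Ideal.mul_mem_right _ _ (mem2 p))
  · exfalso
    have hu := isUnit_of_aug p hw
    apply key1 p hq
    have e1 : r ^ (p ^ e) = ra p ^ (p ^ e) * (f - h) ^ (p ^ e) +
        ((ra p + rc p) ^ (p ^ e) * h ^ (p ^ e) + rb p ^ (p ^ e) * g ^ (p ^ e)) := by
      have := congrArg (iterateFrobenius (R p) p e) hr'
      rw [map_add, map_mul, map_add, map_mul, map_mul] at this
      simpa only [iterateFrobenius_def] using this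
    have e2 : ra p ^ (p ^ e) * (f - h) ^ (p ^ e) ∈
        Ideal.span {(ra p + rc p) ^ (p ^ e), rb p ^ (p ^ e)} := by
      have : ra p ^ (p ^ e) * (f - h) ^ (p ^ e) = r ^ (p ^ e) -
        ((ra p + rc p) ^ (p ^ e) * h ^ (p ^ e) + rb p ^ (p ^ e) * g ^ (p ^ e)) := by
        rw [e1]; ring
      rw [this]
      refine Ideal.sub_mem _ he (Ideal.add_mem _ (Ideal.mul_mem_right _ _ ?_)
        (Ideal.mul_mem_right _ _ ?_))
      · exact Ideal.subset_span (by simp)
      · exact Ideal.subset_span (by simp)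
    exact (Ideal.mul_unit_mem_iff_mem _ (hu.pow (p ^ e))).1 e2

/-- The Frobenius power `I^[p]` is not Frobenius closed. -/
lemma not_closed [ExpChar (R p) p] :
    ¬ (∀ e : ℕ, ∀ r : R p,
          (∃ e' : ℕ, r ^ (p ^ e') ∈ Ideal.map (iterateFrobenius (R p) p e')
              (Ideal.map (iterateFrobenius (R p) p e) (Ideal.span (Set.range (par p))))) →
          r ∈ Ideal.map (iterateFrobenius (R p) p e) (Ideal.span (Set.range (par p)))) := by
  intro H
  have h := H 1 (rb p * rc p) ⟨1, ?_⟩
  · have hmap : Ideal.map (iterateFrobenius (R p) p 1) (Ideal.span (Set.range (par p))) =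
      Ideal.span {(ra p + rc p) ^ (p ^ 1), rb p ^ (p ^ 1)} := by
      rw [range_par, Ideal.map_span, Set.image_pair, iterateFrobenius_def, iterateFrobenius_def]
    rw [hmap, pow_one] at h
    exact key2 p (Fact.out : p.Prime).two_le h
  · obtain ⟨n, hn⟩ := Nat.exists_eq_add_of_le (Fact.out : p.Prime).two_le
    have : (rb p * rc p) ^ (p ^ 1) = 0 := by
      have h0 := rb_sq_mul_rc p
      have h1 : (rb p * rc p) ^ (p ^ 1) = (rb p * rc p) ^ (2 + n) := by
        rw [pow_one]; exact congrArg _ hn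
      rw [h1, pow_add, show (rb p * rc p) ^ 2 = (rb p ^ 2 * rc p) * rc p by ring, h0]
      ring
    rw [this]
    exact Ideal.zero_mem _

end Pool.Agent.FrobParam
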